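import Pool.Agent.W495.FM.Main
import Pool.Agent.W495.FM.Higher

/-!
# Parshin's conjecture for small abelian varieties over finite fields

An abelian variety over the field with `p ^ a` elements is modelled by `RedAV` (Honda, Tate): a
finite product of CM types `(E i, Φ i)` with Weil numbers `π i ∈ E i` that satisfy the formula of
Shimura and Taniyama; its cohomology of degree `n` consists of the alternating `n`-forms on the Tate
module `Ω ⊗ H_1`, on which the Frobenius endomorphism acts by `π`.

`IsSmall Y`: the dimension of `Y` is at most four; or `Y` is (over an algebraic closure) isogenous to
the product of a power of a simple abelian variety of dimension at most five and of a supersingular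
abelian variety; or `Y` is a product of abelian varieties of dimension at most three, with a condition
on the Galois closures of their CM fields. The Newton polygon is arbitrary.

For all these `Y`, and for all smooth projective varieties `X` whose Chow motives are direct summands
of sums of twists of the motives of such `Y`, the groups `H^i(X, ℤ(n))` are torsion for all `n` and
all `i ≠ 2 n`.

The proof: the Tate classes on `Y` are generated by Tate classes of degree two and by reductions of
split Weil classes of abelian fourfolds and sixfolds of CM type, so they are classes of cycles
(theorems of Tate and Markman). A polynomial in the Frobenius correspondence then agrees in the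
cohomology with a sum of products of cycles; by the theorem of Kimura the difference is nilpotent.
It acts on the groups `H^i(Y, ℚ(n))`, `i ≠ 2 n`, as multiplication by a nonzero number.
-/

namespace Pool.Agent.Results.MP_de59b4_ag.SmallAbelianVarieties

open Pool.Agent.W495.TA Pool.Agent.W495.FM

/-- The motivic cohomology groups `X i n = H^i(X, ℤ(n))`, `i ≠ 2 n`, are torsion, for all smooth
projective varieties `X` over a finite field whose motives are direct summands of the sum of twists of
the motives of small abelian varieties `Y l`. -/
theorem result (p : ℕ) [Fact p.Prime] (ν : PadicAlgCl p ≃+* ℂ) (Ω : Type) [Field Ω]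
    [IsAlgClosed Ω] [CharZero Ω] (I : Type) (Y : I → RedAV p ν) (hY : ∀ l, IsSmall (Y l))
    (C : ∀ l, Cycles Ω (Y l)) (hC : ∀ l, IsChow (C l)) (M : ∀ l, Motivic (C l))
    (hM : ∀ l, IsMotivic (M l)) (r : I → ℤ) (X : ℤ → ℤ → Type) [∀ i n, AddCommGroup (X i n)]
    (hX : IsSummand M r X) (n i : ℤ) (hi : i ≠ 2 * n) (x : X i n) :
    ∃ N : ℕ, 0 < N ∧ N • x = 0 :=
  summand_trivial hC (fun l => tateHolds (hY l) (hC l)) hM r X hX i n hi x

end Pool.Agent.Results.MP_de59b4_ag.SmallAbelianVarieties
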